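import Mathlib

set_option autoImplicit false

/-! # Covering a set of integers by few chains of a relation without large independent sets

The acyclic case of the theorem of Gallai and Milgram, by Hall's theorem, for finite and infinite
sets of integers. -/

namespace Run7.h166.GM

open Finset

/-- the relation `R` holds for consecutive elements of every colour class of `f` on `S` -/
def Chains {k : ℕ} (S : Set ℤ) (R : ℤ → ℤ → Prop) (f : ℤ → Fin k) : Prop :=
  ∀ a ∈ S, ∀ b ∈ S, a < b → f a = f b → (∀ c ∈ S, a < c → c < b → f c ≠ f a) → R a b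

/-- any `k + 1` elements of `S` contain a related pair -/
def NoIndep (k : ℕ) (S : Set ℤ) (R : ℤ → ℤ → Prop) : Prop :=
  ∀ I : Finset ℤ, (I : Set ℤ) ⊆ S → I.card = k + 1 → ∃ a ∈ I, ∃ b ∈ I, a < b ∧ R a b

theorem NoIndep.mono {k : ℕ} {S S' : Set ℤ} {R : ℤ → ℤ → Prop} (h : NoIndep k S R) (hS : S' ⊆ S) :
    NoIndep k S' R := fun I hI hc => h I (hI.trans hS) hc

/-- Hall: successors of all but at most `k` elements -/
theorem exists_succ (k : ℕ) (S : Finset ℤ) (R : ℤ → ℤ → Prop) (h : NoIndep k S R) :
    ∃ g : S → ℤ ⊕ Fin k, Function.Injective g ∧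
      ∀ (x : S) (b : ℤ), g x = Sum.inl b → b ∈ S ∧ (x : ℤ) < b ∧ R x b := by
  classical
  set t : S → Finset (ℤ ⊕ Fin k) := fun a =>
    ((S.filter (fun b => (a : ℤ) < b ∧ R a b)).image Sum.inl) ∪ (univ : Finset (Fin k)).image Sum.inr
    with ht
  have hall : ∀ X : Finset S, X.card ≤ (X.biUnion t).card := by
    intro X
    rcases X.eq_empty_or_nonempty with rfl | hX
    · simp
    set N : Finset ℤ := S.filter (fun b => ∃ a ∈ X, (a : ℤ) < b ∧ R a b) with hN
    set X' : Finset ℤ := Finset.image (Subtype.val : S → ℤ) X with hX'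
    have hXc : X'.card = X.card := Finset.card_image_of_injective _ Subtype.val_injective
    have hsub : N.image Sum.inl ∪ (univ : Finset (Fin k)).image Sum.inr ⊆ X.biUnion t := by
      intro y hy
      rw [Finset.mem_union] at hy
      rw [Finset.mem_biUnion]
      rcases hy with hy | hy
      · obtain ⟨b, hb, rfl⟩ := Finset.mem_image.1 hy
        rw [hN, Finset.mem_filter] at hb
        obtain ⟨hbS, a, ha, hab⟩ := hb
        refine ⟨a, ha, ?_⟩
        rw [ht]
        simp only [Finset.mem_union]
        exact Or.inl (Finset.mem_image.2 ⟨b, Finset.mem_filter.2 ⟨hbS, hab⟩, rfl⟩)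
      · obtain ⟨a, ha⟩ := hX
        refine ⟨a, ha, ?_⟩
        rw [ht]
        simp only [Finset.mem_union]
        exact Or.inr hy
    have hdisj : Disjoint (N.image (Sum.inl : ℤ → ℤ ⊕ Fin k))
        ((univ : Finset (Fin k)).image Sum.inr) := by
      rw [Finset.disjoint_left]
      intro y hy hy'
      obtain ⟨b, _, rfl⟩ := Finset.mem_image.1 hy
      obtain ⟨i, _, hi⟩ := Finset.mem_image.1 hy'
      exact absurd hi (by simp)
    have hcard : N.card + k ≤ (X.biUnion t).card := by
      refine le_trans (le_of_eq ?_) (Finset.card_le_card hsub)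
      rw [Finset.card_union_of_disjoint hdisj, Finset.card_image_of_injective _ Sum.inl_injective,
        Finset.card_image_of_injective _ Sum.inr_injective, Finset.card_univ, Fintype.card_fin]
    have hI : (X' \ N).card ≤ k := by
      by_contra hcon
      push Not at hcon
      obtain ⟨I, hI1, hI2⟩ := Finset.exists_subset_card_eq (Nat.succ_le_of_lt hcon)
      obtain ⟨a, ha, b, hb, hab, hR⟩ := h I (by
        intro y hy
        have h1 := (Finset.mem_sdiff.1 (hI1 hy)).1
        obtain ⟨z, _, rfl⟩ := Finset.mem_image.1 h1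
        exact z.2) hI2
      have h1 := Finset.mem_sdiff.1 (hI1 ha)
      have h2 := Finset.mem_sdiff.1 (hI1 hb)
      obtain ⟨a', ha', rfl⟩ := Finset.mem_image.1 h1.1
      obtain ⟨b', hb', rfl⟩ := Finset.mem_image.1 h2.1
      apply h2.2
      rw [hN, Finset.mem_filter]
      exact ⟨b'.2, a', ha', hab, hR⟩
    have h3 : X'.card ≤ (X' \ N).card + N.card := by
      have := Finset.card_le_card (Finset.subset_union_left (s₁ := X') (s₂ := N))
      rw [← Finset.sdiff_union_self_eq_union] at this
      exact this.trans (Finset.card_union_le _ _)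
    omega
  obtain ⟨g, hg1, hg2⟩ := (Finset.all_card_le_biUnion_card_iff_exists_injective t).1 hall
  refine ⟨g, hg1, fun x b hb => ?_⟩
  have h1 := hg2 x
  rw [hb, ht] at h1
  simp only [Finset.mem_union, Finset.mem_image, Finset.mem_filter, Sum.inl.injEq,
    reduceCtorEq, and_false, exists_false, or_false, exists_eq_right] at h1
  exact h1

/-- **Gallai–Milgram**, acyclic case, finite sets -/
theorem finite_chains (k : ℕ) (hk : 0 < k) (S : Finset ℤ) (R : ℤ → ℤ → Prop) (h : NoIndep k S R) :
    ∃ f : ℤ → Fin k, Chains (S : Set ℤ) R f := by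
  classical
  obtain ⟨g, hinj, hg⟩ := exists_succ k S R h
  -- the successor
  let nx : S → S := fun x => if hx : ∃ b, g x = Sum.inl b then
    ⟨hx.choose, (hg x _ hx.choose_spec).1⟩ else x
  have nx_inl : ∀ (x : S) (b : ℤ), g x = Sum.inl b → (nx x : ℤ) = b := by
    intro x b hb
    have hx : ∃ b, g x = Sum.inl b := ⟨b, hb⟩
    have h1 : nx x = ⟨hx.choose, (hg x _ hx.choose_spec).1⟩ := dif_pos hx
    rw [h1]
    have h2 : (Sum.inl b : ℤ ⊕ Fin k) = Sum.inl hx.choose := hb.symm.trans hx.choose_spec
    exact (Sum.inl.inj h2).symm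
  have nx_inr : ∀ (x : S) (i : Fin k), g x = Sum.inr i → nx x = x := by
    intro x i hi
    have hx : ¬ ∃ b, g x = Sum.inl b := by
      rintro ⟨b, hb⟩
      rw [hb] at hi
      exact absurd hi (by simp)
    exact dif_neg hx
  have nx_le : ∀ x : S, (x : ℤ) ≤ nx x := by
    intro x
    rcases hx : g x with b | i
    · rw [nx_inl x b hx]
      exact (hg x b hx).2.1.le
    · rw [nx_inr x i hx]
  have it_le : ∀ (n : ℕ) (x : S), (x : ℤ) ≤ (nx^[n] x : S) := by
    intro n
    induction n with
    | zero => intro x; simp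
    | succ n ih =>
      intro x
      rw [Function.iterate_succ_apply]
      exact (nx_le x).trans (ih _)
  -- number of larger elements
  let φ : S → ℕ := fun x => (S.filter (fun b => (x : ℤ) < b)).card
  have φ_lt : ∀ x y : S, (x : ℤ) < y → φ y < φ x := by
    intro x y hxy
    apply Finset.card_lt_card
    rw [Finset.ssubset_iff_of_subset]
    · exact ⟨y, Finset.mem_filter.2 ⟨y.2, hxy⟩, fun h => lt_irrefl _ (Finset.mem_filter.1 h).2⟩
    · intro z hz
      rw [Finset.mem_filter] at hz ⊢
      exact ⟨hz.1, hxy.trans hz.2⟩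
  have fix : ∀ (n : ℕ) (x : S) (i : Fin k), g x = Sum.inr i → nx^[n] x = x := by
    intro n x i hi
    exact Function.iterate_fixed (nx_inr x i hi) n
  have term : ∀ (n : ℕ) (x : S), φ x ≤ n → ∃ i, g (nx^[n] x) = Sum.inr i := by
    intro n
    induction n with
    | zero =>
      intro x hx
      rcases hgx : g x with b | i
      · exfalso
        have h1 := hg x b hgx
        have h2 : b ∈ S.filter (fun b => (x : ℤ) < b) := Finset.mem_filter.2 ⟨h1.1, h1.2.1⟩
        have h3 : 0 < φ x := Finset.card_pos.2 ⟨b, h2⟩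
        omega
      · exact ⟨i, by simpa using hgx⟩
    | succ n ih =>
      intro x hx
      rw [Function.iterate_succ_apply]
      rcases hgx : g x with b | i
      · apply ih
        have h1 := φ_lt x (nx x) (by rw [nx_inl x b hgx]; exact (hg x b hgx).2.1)
        omega
      · rw [nx_inr x i hgx, fix n x i hgx]
        exact ⟨i, hgx⟩
  have φ_le : ∀ x : S, φ x ≤ S.card := fun x => Finset.card_filter_le _ _
  let T : S → S := fun x => nx^[S.card] x
  have hT : ∀ x : S, ∃ i, g (T x) = Sum.inr i := fun x => term _ x (φ_le x)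
  choose col hcol using hT
  have T_nx : ∀ x : S, T (nx x) = T x := by
    intro x
    change nx^[S.card] (nx x) = nx^[S.card] x
    rw [← Function.iterate_succ_apply, Function.iterate_succ_apply']
    exact nx_inr _ _ (hcol x)
  have col_nx : ∀ x : S, col (nx x) = col x := by
    intro x
    have h1 := hcol (nx x)
    rw [T_nx, hcol x] at h1
    exact (Sum.inr.inj h1).symm
  have T_eq : ∀ x y : S, col x = col y → T x = T y := by
    intro x y hxy
    apply hinj
    rw [hcol x, hcol y, hxy]
  -- an element below one of the same colour has a successor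
  have nonterm : ∀ x y : S, (x : ℤ) < y → col x = col y → ∃ b, g x = Sum.inl b := by
    intro x y hxy hc
    rcases hgx : g x with b | i
    · exact ⟨b, rfl⟩
    · exfalso
      have h1 : T x = x := fix _ x i hgx
      have h2 := it_le S.card y
      have h3 : T x = T y := T_eq x y hc
      have h4 : (x : ℤ) = (nx^[S.card] y : S) := by
        rw [← h1, h3]
      rw [← h4] at h2
      linarith
  have key : ∀ (n : ℕ) (x y : S), φ y ≤ n → (x : ℤ) < y → col x = col y → (nx x : ℤ) ≤ y := by
    intro n
    induction n with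
    | zero =>
      intro x y hy hxy hc
      by_contra hcon
      push Not at hcon
      have h1 := φ_lt y (nx x) hcon
      omega
    | succ n ih =>
      intro x y hy hxy hc
      by_contra hcon
      push Not at hcon
      have h1 := φ_lt y (nx x) hcon
      have h2 : (nx y : ℤ) ≤ nx x := ih y (nx x) (by omega) hcon (by rw [col_nx, hc])
      obtain ⟨b, hb⟩ := nonterm x y hxy hc
      obtain ⟨b', hb'⟩ := nonterm y (nx x) hcon (by rw [col_nx, hc])
      have h3 : (nx y : ℤ) ≠ nx x := by
        intro h4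
        rw [nx_inl x b hb, nx_inl y b' hb'] at h4
        have h5 : x = y := hinj (by rw [hb, hb', h4])
        rw [h5] at hxy
        exact lt_irrefl _ hxy
      have h4 : (nx y : ℤ) < nx x := lt_of_le_of_ne h2 h3
      have h5 : (y : ℤ) < nx y := by
        rw [nx_inl y b' hb']
        exact (hg y b' hb').2.1
      have h6 := φ_lt y (nx y) h5
      have h7 := ih x (nx y) (by omega) (hxy.trans h5) (by rw [col_nx, hc])
      linarith
  refine ⟨fun a => if ha : a ∈ S then col ⟨a, ha⟩ else ⟨0, hk⟩, ?_⟩
  intro a ha b hb hab hfab hno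
  have ha' : a ∈ S := ha
  have hb' : b ∈ S := hb
  simp only [dif_pos ha', dif_pos hb'] at hfab hno
  set x : S := ⟨a, ha'⟩ with hx
  set y : S := ⟨b, hb'⟩ with hy
  have h1 := key _ x y le_rfl hab hfab
  obtain ⟨c, hc⟩ := nonterm x y hab hfab
  have h2 := hg x c hc
  have h3 := nx_inl x c hc
  rcases lt_or_eq_of_le h1 with h4 | h4
  · exfalso
    apply hno (nx x) (nx x).2 (by rw [h3]; exact h2.2.1) h4
    simp only [Finset.coe_mem, dite_true]
    exact col_nx x
  · have h5 : c = b := by rw [← h3, h4]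
    rw [← h5]
    exact h2.2.2

/-- **Gallai–Milgram**, acyclic case, arbitrary sets of integers -/
theorem chains (k : ℕ) (hk : 0 < k) (S : Set ℤ) (R : ℤ → ℤ → Prop) (h : NoIndep k S R) :
    ∃ f : ℤ → Fin k, Chains S R f := by
  classical
  have h1 : ∀ M : ℕ, ∃ f : ℤ → Fin k, Chains (S ∩ Set.Icc (-(M : ℤ)) M) R f := by
    intro M
    have hfin : (S ∩ Set.Icc (-(M : ℤ)) M).Finite := (Set.finite_Icc _ _).inter_of_right _
    obtain ⟨f, hf⟩ := finite_chains k hk hfin.toFinset R (by
      rw [hfin.coe_toFinset]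
      exact h.mono Set.inter_subset_left)
    rw [hfin.coe_toFinset] at hf
    exact ⟨f, hf⟩
  choose F hF using h1
  let U : Ultrafilter ℕ := Filter.hyperfilter ℕ
  have h2 : ∀ c : ℤ, ∃ i : Fin k, ∀ᶠ M in (U : Filter ℕ), F M c = i := by
    intro c
    obtain ⟨i, hi⟩ := Ultrafilter.eq_pure_of_finite (U.map (fun M => F M c))
    refine ⟨i, ?_⟩
    have h3 : ({i} : Set (Fin k)) ∈ (U.map (fun M => F M c)) := by
      rw [hi]
      exact Set.mem_singleton i
    exact h3
  choose f hf using h2
  refine ⟨f, ?_⟩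
  intro a ha b hb hab hfab hno
  have h3 : ∀ᶠ M in (U : Filter ℕ), ∀ c ∈ Finset.Icc a b, F M c = f c := by
    rw [Filter.eventually_all_finset]
    exact fun c _ => hf c
  have h4 : ∀ᶠ M : ℕ in (U : Filter ℕ), a.natAbs + b.natAbs ≤ M := by
    have h5 : (U : Filter ℕ) ≤ Filter.atTop := by
      have := Filter.hyperfilter_le_cofinite (α := ℕ)
      rwa [Nat.cofinite_eq_atTop] at this
    exact h5 (Filter.eventually_ge_atTop _)
  obtain ⟨M, hM1, hM2⟩ := (h3.and h4).exists
  have haM : a ∈ Set.Icc (-(M : ℤ)) M := ⟨by omega, by omega⟩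
  have hbM : b ∈ Set.Icc (-(M : ℤ)) M := ⟨by omega, by omega⟩
  have e1 := hM1 a (Finset.mem_Icc.2 ⟨le_rfl, hab.le⟩)
  have e2 := hM1 b (Finset.mem_Icc.2 ⟨hab.le, le_rfl⟩)
  apply hF M a ⟨ha, haM⟩ b ⟨hb, hbM⟩ hab (by rw [e1, e2, hfab])
  intro c hc hac hcb
  rw [hM1 c (Finset.mem_Icc.2 ⟨hac.le, hcb.le⟩), e1]
  exact hno c hc.1 hac hcb

end Run7.h166.GM
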