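import Pool.Agent.Y826.ZG.Final
import Pool.Agent.Run7.h166.GM.Cover

set_option autoImplicit false

/-! # Pairs of simultaneously prime linear forms in sequences of linear forms -/

namespace Run7.h166.GM

open Filter Finset

/-- the integers `1 ≤ n ≤ x` at which both forms are prime -/
noncomputable def bothSet (A B : ℕ → ℕ) (i j : ℕ) (x : ℝ) : Finset ℕ :=
  (Finset.Icc 1 ⌊x⌋₊).filter (fun n => (A i * n + B i).Prime ∧ (A j * n + B j).Prime)

/-- for every `ε > 0` and arbitrarily large `x`, at least `x ^ (1 - ε)` of the `n ≤ x` make both forms prime -/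
def Both (A B : ℕ → ℕ) (i j : ℕ) : Prop :=
  ∀ ε : ℝ, 0 < ε → ∃ᶠ x : ℝ in atTop, x ^ (1 - ε) ≤ ((bothSet A B i j x).card : ℝ)

/-- any 45 of the forms are admissible -/
structure Adm45 (A B : ℕ → ℕ) (S : Set ℕ) : Prop where
  pos : ∀ i ∈ S, 1 ≤ A i
  ne : ∀ i ∈ S, ∀ j ∈ S, i ≠ j → A i * B j ≠ A j * B i
  adm : ∀ I : Finset ℕ, (I : Set ℕ) ⊆ S → I.card = 45 → ∀ p : ℕ, p.Prime → ∃ a : ℕ, ∀ i ∈ I, ¬ p ∣ A i * a + B i

theorem exists_both (A B : ℕ → ℕ) (S : Set ℕ) (h : Adm45 A B S) (I : Finset ℕ) (hI : (I : Set ℕ) ⊆ S)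
    (hc : I.card = 45) : ∃ i ∈ I, ∃ j ∈ I, i < j ∧ Both A B i j := by
  classical
  by_contra hcon
  push Not at hcon
  have h1 : ∀ i j : ℕ, ∃ ε : ℝ, 0 < ε ∧ (i ∈ I → j ∈ I → i < j →
      ∀ᶠ x : ℝ in atTop, ((bothSet A B i j x).card : ℝ) < x ^ (1 - ε)) := by
    intro i j
    by_cases hij : i ∈ I ∧ j ∈ I ∧ i < j
    · have h2 := hcon i hij.1 j hij.2.1 hij.2.2
      unfold Both at h2
      push Not at h2
      obtain ⟨ε, hε, h3⟩ := h2
      refine ⟨ε, hε, fun _ _ _ => ?_⟩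
      simpa using h3
    · exact ⟨1, one_pos, fun a b c => absurd ⟨a, b, c⟩ hij⟩
  choose e he hev using h1
  -- a common exponent
  obtain ⟨δ, hδ, hδe⟩ : ∃ δ : ℝ, 0 < δ ∧ ∀ i ∈ I, ∀ j ∈ I, δ ≤ e i j := by
    have hne : (I ×ˢ I).Nonempty := by
      have : I.Nonempty := Finset.card_pos.1 (by omega)
      exact this.product this
    obtain ⟨P, hP, hP2⟩ := Finset.exists_min_image (I ×ˢ I) (fun P => e P.1 P.2) hne
    refine ⟨e P.1 P.2, he _ _, fun i hi j hj => ?_⟩
    exact hP2 (i, j) (Finset.mem_product.2 ⟨hi, hj⟩)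
  let v : Fin 45 ↪o ℕ := I.orderEmbOfFin hc
  have hv : ∀ t, v t ∈ I := fun t => I.orderEmbOfFin_mem hc t
  have hadm : Pool.Agent.H95R2.BG.LF.AdmissibleL (fun t => A (v t)) (fun t => B (v t)) := by
    refine ⟨fun t => h.pos _ (hI (hv t)), fun s t hst => ?_, fun p hp => ?_⟩
    · exact h.ne _ (hI (hv s)) _ (hI (hv t)) (fun heq => hst (v.injective heq))
    · obtain ⟨a, ha⟩ := h.adm I hI hc p hp
      exact ⟨a, fun t => ha _ (hv t)⟩
  have hD := Pool.Agent.Y826.ZG.dhl45L (fun t => A (v t)) (fun t => B (v t)) hadm (δ / 2) (by positivity)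
  have hall : ∀ᶠ x : ℝ in atTop, ∀ i ∈ I, ∀ j ∈ I, i < j →
      ((bothSet A B i j x).card : ℝ) < x ^ (1 - e i j) := by
    rw [Filter.eventually_all_finset]
    intro i hi
    rw [Filter.eventually_all_finset]
    intro j hj
    by_cases hij : i < j
    · filter_upwards [hev i j hi hj hij] with x hx _ using hx
    · filter_upwards with x h' using absurd h' hij
  have hgrow : ∀ᶠ x : ℝ in atTop, (2025 : ℝ) < x ^ (δ / 2) :=
    (tendsto_rpow_atTop (by positivity : (0 : ℝ) < δ / 2)).eventually_gt_atTop 2025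
  obtain ⟨x, hx1, hx2, hx3, hx4⟩ := (hD.and (hall.and (hgrow.and (eventually_ge_atTop (1 : ℝ))))).exists
  have hsub : Pool.Agent.H95R2.BG.LF.goodL (fun t => A (v t)) (fun t => B (v t)) x ⊆
      ((I ×ˢ I).filter (fun P => P.1 < P.2)).biUnion (fun P => bothSet A B P.1 P.2 x) := by
    intro n hn
    unfold Pool.Agent.H95R2.BG.LF.goodL at hn
    rw [Finset.mem_filter] at hn
    obtain ⟨hn1, s, t, hst, hs, ht⟩ := hn
    rw [Finset.mem_biUnion]
    rcases lt_or_gt_of_ne (fun heq => hst (v.injective heq) : v s ≠ v t) with h5 | h5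
    · refine ⟨(v s, v t), Finset.mem_filter.2 ⟨Finset.mem_product.2 ⟨hv s, hv t⟩, h5⟩, ?_⟩
      exact Finset.mem_filter.2 ⟨hn1, hs, ht⟩
    · refine ⟨(v t, v s), Finset.mem_filter.2 ⟨Finset.mem_product.2 ⟨hv t, hv s⟩, h5⟩, ?_⟩
      exact Finset.mem_filter.2 ⟨hn1, ht, hs⟩
  have hx0 : 0 < x := by linarith
  have hcard : ((Pool.Agent.H95R2.BG.LF.goodL (fun t => A (v t)) (fun t => B (v t)) x).card : ℝ) ≤
      2025 * x ^ (1 - δ) := by
    calc ((Pool.Agent.H95R2.BG.LF.goodL (fun t => A (v t)) (fun t => B (v t)) x).card : ℝ)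
        ≤ (∑ P ∈ (I ×ˢ I).filter (fun P => P.1 < P.2), (bothSet A B P.1 P.2 x).card : ℕ) := by
          exact_mod_cast (Finset.card_le_card hsub).trans Finset.card_biUnion_le
      _ = ∑ P ∈ (I ×ˢ I).filter (fun P => P.1 < P.2), ((bothSet A B P.1 P.2 x).card : ℝ) := by
          push_cast; rfl
      _ ≤ ∑ P ∈ (I ×ˢ I).filter (fun P => P.1 < P.2), x ^ (1 - δ) := by
          apply Finset.sum_le_sum
          intro P hP
          rw [Finset.mem_filter, Finset.mem_product] at hP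
          refine (hx2 P.1 hP.1.1 P.2 hP.1.2 hP.2).le.trans ?_
          exact Real.rpow_le_rpow_of_exponent_le hx4 (by
            have := hδe P.1 hP.1.1 P.2 hP.1.2
            linarith)
      _ = (((I ×ˢ I).filter (fun P => P.1 < P.2)).card : ℝ) * x ^ (1 - δ) := by
          rw [Finset.sum_const, nsmul_eq_mul]
      _ ≤ 2025 * x ^ (1 - δ) := by
          apply mul_le_mul_of_nonneg_right _ (Real.rpow_nonneg hx0.le _)
          have : ((I ×ˢ I).filter (fun P => P.1 < P.2)).card ≤ 2025 := by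
            refine (Finset.card_filter_le _ _).trans ?_
            rw [Finset.card_product, hc]
          exact_mod_cast this
  have h6 : x ^ (1 - δ / 2) = x ^ (1 - δ) * x ^ (δ / 2) := by
    rw [← Real.rpow_add hx0]
    congr 1
    ring
  have h7 : (0 : ℝ) < x ^ (1 - δ) := Real.rpow_pos_of_pos hx0 _
  rw [h6] at hx1
  nlinarith

/-- **44 chains of linear forms** -/
theorem chains_forms (A B : ℕ → ℕ) (S : Set ℕ) (h : Adm45 A B S) :
    ∃ f : ℕ → Fin 44, ∀ i ∈ S, ∀ j ∈ S, i < j → f i = f j → (∀ l ∈ S, i < l → l < j → f l ≠ f i) →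
      Both A B i j := by
  classical
  obtain ⟨f, hf⟩ := chains 44 (by norm_num) ((fun n : ℕ => (n : ℤ)) '' S)
    (fun a b => Both A B a.toNat b.toNat) (by
      intro I hI hc
      have hnn : ∀ a ∈ I, 0 ≤ a := by
        intro a ha
        obtain ⟨n, _, rfl⟩ := hI ha
        exact Int.natCast_nonneg n
      have hinj : Set.InjOn Int.toNat (I : Set ℤ) := by
        intro a ha b hb hab
        have h1 := Int.toNat_of_nonneg (hnn a ha)
        have h2 := Int.toNat_of_nonneg (hnn b hb)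
        rw [← h1, ← h2, hab]
      obtain ⟨i, hi, j, hj, hij, hb⟩ := exists_both A B S h (I.image Int.toNat) (by
        intro n hn
        obtain ⟨a, ha, rfl⟩ := Finset.mem_image.1 (Finset.mem_coe.1 hn)
        obtain ⟨m, hm, hma⟩ := hI ha
        have : a.toNat = m := by rw [← hma]; simp
        rw [this]
        exact hm) (by rw [Finset.card_image_of_injOn hinj, hc])
      obtain ⟨a, ha, rfl⟩ := Finset.mem_image.1 hi
      obtain ⟨b, hb', rfl⟩ := Finset.mem_image.1 hj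
      refine ⟨a, ha, b, hb', ?_, hb⟩
      have h1 := Int.toNat_of_nonneg (hnn a ha)
      have h2 := Int.toNat_of_nonneg (hnn b hb')
      omega)
  refine ⟨fun n => f (n : ℤ), fun i hi j hj hij hfij hno => ?_⟩
  have h1 := hf (i : ℤ) ⟨i, hi, rfl⟩ (j : ℤ) ⟨j, hj, rfl⟩ (by exact_mod_cast hij) hfij (by
    rintro c ⟨l, hl, rfl⟩ h1 h2
    have h1' : (i : ℤ) < (l : ℤ) := h1
    have h2' : (l : ℤ) < (j : ℤ) := h2
    exact hno l hl (by exact_mod_cast h1') (by exact_mod_cast h2'))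
  simpa using h1

end Run7.h166.GM
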