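import Pool.Agent.Y826.ZG.Final
import Pool.Agent.Y826.ZC.Exact
import Pool.Agent.Run7.h166.GM.Cover

set_option autoImplicit false

/-! # Chains whose steps are gaps between consecutive primes -/

namespace Run7.h166.GM

open Filter

/-- For every `ε > 0` and arbitrarily large `x`, at least `x ^ (1 - ε)` integers `0 ≤ n ≤ x` with
`n ≡ r (mod q)` are such that `n + a` and `n + b` are consecutive primes. -/
def Step (q : ℕ) (r a b : ℤ) : Prop :=
  ∀ ε : ℝ, 0 < ε → ∃ᶠ x : ℝ in atTop,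
    x ^ (1 - ε) ≤ (Set.ncard {n : ℕ | (n : ℝ) ≤ x ∧ (n : ℤ) ≡ r [ZMOD q] ∧
      (∃ p : ℕ, p.Prime ∧ (p : ℤ) = n + a) ∧ (∃ p : ℕ, p.Prime ∧ (p : ℤ) = n + b) ∧
      ∀ p : ℕ, p.Prime → ¬ ((n : ℤ) + a < p ∧ (p : ℤ) < n + b)} : ℝ)

/-- a finite set misses a residue class modulo every larger prime -/
theorem exists_class (I : Finset ℤ) (p : ℕ) (h : I.card < p) :
    ∃ c : ℤ, ∀ s ∈ I, ¬ (p : ℤ) ∣ c + s := by
  classical
  by_contra hcon
  push Not at hcon
  choose g hg hgd using hcon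
  have hinj : Set.InjOn (fun c : ℕ => g (c : ℤ)) (Finset.range p : Set ℕ) := by
    intro c hc c' hc' hcc'
    simp only at hcc'
    have h1 := hgd c
    have h2 := hgd c'
    rw [← hcc'] at h2
    have h3 := dvd_sub h1 h2
    have e : (c : ℤ) + g c - (c' + g c) = (c : ℤ) - c' := by ring
    rw [e] at h3
    have h4 : c < p := Finset.mem_range.1 hc
    have h5 : c' < p := Finset.mem_range.1 hc'
    obtain ⟨k, hk⟩ := h3
    have h6 : k = 0 := by
      by_contra hk0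
      rcases lt_or_gt_of_ne hk0 with h7 | h7
      · have : (p : ℤ) * k ≤ (p : ℤ) * (-1) := mul_le_mul_of_nonneg_left (by omega) (by positivity)
        omega
      · have : (p : ℤ) * 1 ≤ (p : ℤ) * k := mul_le_mul_of_nonneg_left (by omega) (by positivity)
        omega
    rw [h6] at hk
    omega
  have h1 : ((Finset.range p).image (fun c : ℕ => g (c : ℤ))).card = p := by
    rw [Finset.card_image_of_injOn hinj, Finset.card_range]
  have h2 : (Finset.range p).image (fun c : ℕ => g (c : ℤ)) ⊆ I := by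
    intro y hy
    obtain ⟨c, _, rfl⟩ := Finset.mem_image.1 hy
    exact hg c
  have := Finset.card_le_card h2
  omega

theorem exists_step (q : ℕ) (hq : 0 < q) (r : ℤ) (S : Set ℤ)
    (hS : ∀ p : ℕ, p.Prime → p ≤ 43 → ∃ c : ℤ, ∀ s ∈ S, ¬ (p : ℤ) ∣ c + s)
    (hr : ∀ s ∈ S, IsCoprime (r + s) (q : ℤ)) (I : Finset ℤ) (hI : (I : Set ℤ) ⊆ S)
    (hcard : I.card = 45) : ∃ a ∈ I, ∃ b ∈ I, a < b ∧ Step q r a b := by
  classical
  obtain ⟨B, hB, hB2, hBR⟩ := Pool.Agent.Y826.ZC.exact45_of Pool.Agent.Y826.ZG.dhl45L I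
    (by omega) (by
      intro p hp
      by_cases hp43 : p ≤ 43
      · obtain ⟨c, hc⟩ := hS p hp hp43
        exact ⟨c, fun s hs => hc s (hI hs)⟩
      · apply exists_class
        by_contra hcon
        have h1 : p = 44 ∨ p = 45 := by omega
        rcases h1 with rfl | rfl
        · exact absurd hp (by norm_num)
        · exact absurd hp (by norm_num)) q r hq (fun s hs => hr s (hI hs))
  have hne : B.Nonempty := Finset.card_pos.1 (by omega)
  set a := B.min' hne with ha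
  have haB : a ∈ B := Finset.min'_mem _ _
  have hne2 : (B.erase a).Nonempty := by
    apply Finset.card_pos.1
    rw [Finset.card_erase_of_mem haB]
    omega
  set b := (B.erase a).min' hne2 with hb
  have hbB' : b ∈ B.erase a := Finset.min'_mem _ _
  have hbB : b ∈ B := Finset.mem_of_mem_erase hbB'
  have hab : a < b := lt_of_le_of_ne (Finset.min'_le _ _ hbB) (Finset.ne_of_mem_erase hbB').symm
  refine ⟨a, hB haB, b, hB hbB, hab, ?_⟩
  intro ε hε
  refine (hBR (a.natAbs + b.natAbs) ε hε).mono ?_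
  intro x hx
  refine hx.trans ?_
  have hfin : {n : ℕ | (n : ℝ) ≤ x ∧ (n : ℤ) ≡ r [ZMOD q] ∧
      (∃ p : ℕ, p.Prime ∧ (p : ℤ) = n + a) ∧ (∃ p : ℕ, p.Prime ∧ (p : ℤ) = n + b) ∧
      ∀ p : ℕ, p.Prime → ¬ ((n : ℤ) + a < p ∧ (p : ℤ) < n + b)}.Finite := by
    apply (Set.finite_Iic ⌊x⌋₊).subset
    rintro n ⟨hn, -⟩
    exact Nat.le_floor hn
  have hsub := Set.ncard_le_ncard (s := {n : ℕ | (n : ℝ) ≤ x ∧ (n : ℤ) ≡ r [ZMOD q] ∧
        ∀ y : ℤ, |y| ≤ (a.natAbs + b.natAbs : ℕ) →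
          ((∃ p : ℕ, p.Prime ∧ (p : ℤ) = n + y) ↔ y ∈ B)}) (by
    rintro n ⟨h1, h2, h3⟩
    refine ⟨h1, h2, (h3 a ?_).2 haB, (h3 b ?_).2 hbB, ?_⟩
    · rw [abs_le]; omega
    · rw [abs_le]; omega
    · rintro p hp ⟨h4, h5⟩
      have h6 := (h3 ((p : ℤ) - n) (by rw [abs_le]; omega)).1 ⟨p, hp, by ring⟩
      have h7 : (p : ℤ) - n ∈ B.erase a := Finset.mem_erase.2 ⟨by omega, h6⟩
      have h8 := Finset.min'_le _ _ h7
      rw [← hb] at h8
      omega) hfin
  exact_mod_cast hsub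

/-- **44 chains** -/
theorem chains44 (q : ℕ) (hq : 0 < q) (r : ℤ) (T : Set ℤ) (s : ℤ → ℤ) (hs : Set.InjOn s T)
    (hS : ∀ p : ℕ, p.Prime → p ≤ 43 → ∃ c : ℤ, ∀ i ∈ T, ¬ (p : ℤ) ∣ c + s i)
    (hr : ∀ i ∈ T, IsCoprime (r + s i) (q : ℤ)) :
    ∃ f : ℤ → Fin 44, Chains T (fun i j => Step q r (min (s i) (s j)) (max (s i) (s j))) f := by
  classical
  apply chains 44 (by norm_num)
  intro I hI hc
  have hinj : Set.InjOn s (I : Set ℤ) := hs.mono hI
  obtain ⟨a, ha, b, hb, hab, hst⟩ := exists_step q hq r (s '' T) (by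
    intro p hp hp43
    obtain ⟨c, hc⟩ := hS p hp hp43
    refine ⟨c, ?_⟩
    rintro _ ⟨i, hi, rfl⟩
    exact hc i hi) (by
    rintro _ ⟨i, hi, rfl⟩
    exact hr i hi) (I.image s) (by
    intro y hy
    obtain ⟨i, hi, rfl⟩ := Finset.mem_image.1 (Finset.mem_coe.1 hy)
    exact ⟨i, hI hi, rfl⟩) (by rw [Finset.card_image_of_injOn hinj, hc])
  obtain ⟨i, hi, rfl⟩ := Finset.mem_image.1 ha
  obtain ⟨j, hj, rfl⟩ := Finset.mem_image.1 hb
  rcases lt_trichotomy i j with h | h | h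
  · refine ⟨i, hi, j, hj, h, ?_⟩
    simp only [min_eq_left hab.le, max_eq_right hab.le]
    exact hst
  · rw [h] at hab
    exact absurd hab (lt_irrefl _)
  · refine ⟨j, hj, i, hi, h, ?_⟩
    simp only [min_eq_right hab.le, max_eq_left hab.le]
    exact hst

end Run7.h166.GM
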